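import Mathlib

/-!
# Idempotents from an element whose polynomial is nilpotent, and compression by an idempotent
-/

open Polynomial

namespace Pool.Agent.E870.SD

/-- The factor `(X - (i - d))^m`. -/
noncomputable def fac (d m : ℕ) (i : ℕ) : ℚ[X] := (X - C ((i : ℚ) - d)) ^ m

/-- The product of the linear factors `X - (i - d)`, `0 ≤ i ≤ 2 d`. -/
noncomputable def wpol (d : ℕ) : ℚ[X] := ∏ i ∈ Finset.range (2 * d + 1), (X - C ((i : ℚ) - d))

lemma fac_coprime (d m : ℕ) {i j : ℕ} (h : i ≠ j) : IsCoprime (fac d m i) (fac d m j) := by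
  apply IsCoprime.pow
  have h1 := Polynomial.pairwise_coprime_X_sub_C (K := ℚ) (s := fun i : ℕ => (i : ℚ) - d)
    (fun a b hab => by
      have h2 : (a : ℚ) - d = (b : ℚ) - d := hab
      have h3 : (a : ℚ) = b := by linarith
      exact_mod_cast h3)
  exact h1 h

lemma wpol_pow (d m : ℕ) : wpol d ^ m = ∏ i ∈ Finset.range (2 * d + 1), fac d m i := by
  rw [wpol, ← Finset.prod_pow]
  rfl

lemma dvd_of_forall (d m : ℕ) {P : ℚ[X]} (h : ∀ i ∈ Finset.range (2 * d + 1), fac d m i ∣ P) :
    wpol d ^ m ∣ P := by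
  rw [wpol_pow]
  exact Finset.prod_dvd_of_coprime (fun i _ j _ hij => fac_coprime d m hij) h

/-- The polynomials which give the idempotents. -/
lemma exists_eps (d m : ℕ) : ∃ ε : ℕ → ℚ[X], (∀ i ∈ Finset.range (2 * d + 1), fac d m i ∣ ε i - 1) ∧
    (∀ i, ∀ j ∈ Finset.range (2 * d + 1), j ≠ i → fac d m j ∣ ε i) ∧
    ∀ i, i ∉ Finset.range (2 * d + 1) → ε i = 0 := by
  have h : ∀ i : ℕ, ∃ e : ℚ[X], (i ∈ Finset.range (2 * d + 1) → fac d m i ∣ e - 1) ∧
      (∀ j ∈ Finset.range (2 * d + 1), j ≠ i → fac d m j ∣ e) ∧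
      (i ∉ Finset.range (2 * d + 1) → e = 0) := by
    intro i
    by_cases hi : i ∈ Finset.range (2 * d + 1)
    · have h1 : IsCoprime (fac d m i) (∏ j ∈ (Finset.range (2 * d + 1)).erase i, fac d m j) :=
        IsCoprime.prod_right fun j hj => fac_coprime d m (Finset.ne_of_mem_erase hj).symm
      obtain ⟨a, b, hab⟩ := h1
      refine ⟨b * ∏ j ∈ (Finset.range (2 * d + 1)).erase i, fac d m j, fun _ => ⟨-a, ?_⟩,
        fun j hj hji => ?_, fun h => absurd hi h⟩
      · linear_combination hab
      · exact (Finset.dvd_prod_of_mem _ (Finset.mem_erase.2 ⟨hji, hj⟩)).mul_left b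
    · exact ⟨0, fun h => absurd h hi, fun _ _ _ => dvd_zero _, fun _ => rfl⟩
  choose ε h1 h2 h3 using h
  exact ⟨ε, h1, h2, h3⟩

section ring

variable {R : Type*} [Ring R] [Algebra ℚ R]

lemma aeval_zero_of_dvd {x : R} {d m : ℕ} (hx : (aeval x (wpol d)) ^ m = 0) {P : ℚ[X]}
    (h : wpol d ^ m ∣ P) : aeval x P = 0 := by
  obtain ⟨Q, rfl⟩ := h
  rw [map_mul, map_pow, hx, zero_mul]

lemma aeval_mul_eigen {D p : R} {c : ℚ} (h : D * p = c • p)
    (Q : ℚ[X]) : aeval D Q * p = Q.eval c • p := by
  induction Q using Polynomial.induction_on' with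
  | add a b ha hb => rw [map_add, add_mul, ha, hb, eval_add, add_smul]
  | monomial m q =>
    rw [← C_mul_X_pow_eq_monomial, map_mul, aeval_C, map_pow, aeval_X, ← Algebra.smul_def,
      smul_mul_assoc, eval_C_mul, eval_pow, eval_X, mul_smul]
    congr 1
    induction m with
    | zero => simp
    | succ m ih => rw [pow_succ, mul_assoc, h, mul_smul_comm, ih, smul_smul, pow_succ']

/-- **Idempotents from an element `x` such that `∏ (x - (i - d))` is nilpotent.** -/
theorem exists_idem (d m : ℕ) : ∃ ε : ℕ → ℚ[X], ∀ {x : R}, (aeval x (wpol d)) ^ m = 0 →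
    (∀ i, i ∉ Finset.range (2 * d + 1) → aeval x (ε i) = 0) ∧
    (∀ i j, aeval x (ε i) * aeval x (ε j) = if i = j then aeval x (ε i) else 0) ∧
    ∑ i ∈ Finset.range (2 * d + 1), aeval x (ε i) = 1 ∧
    (∀ i ∈ Finset.range (2 * d + 1), aeval x (ε i) * (x - algebraMap ℚ R ((i : ℚ) - d)) ^ m = 0) ∧
    ∀ i ≤ 2 * d, aeval (-x) (ε i) = aeval x (ε (2 * d - i)) := by
  obtain ⟨ε, h1, h2, h3⟩ := exists_eps d m
  refine ⟨ε, fun {x} hx => ⟨fun i hi => by rw [h3 i hi, map_zero], fun i j => ?_, ?_, fun i hi => ?_,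
    fun i hi => ?_⟩⟩
  · split_ifs with hij
    · subst hij
      rw [← sub_eq_zero, ← map_mul, ← map_sub]
      refine aeval_zero_of_dvd hx (dvd_of_forall d m fun l hl => ?_)
      by_cases hli : l = i
      · subst hli
        obtain ⟨c, hc⟩ := h1 l hl
        exact ⟨ε l * c, by linear_combination (ε l) * hc⟩
      · obtain ⟨c, hc⟩ := h2 i l hl hli
        exact ⟨c * (ε i - 1), by linear_combination (ε i - 1) * hc⟩
    · rw [← map_mul]
      refine aeval_zero_of_dvd hx (dvd_of_forall d m fun l hl => ?_)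
      by_cases hli : l = i
      · exact (h2 j l hl (fun h => hij (hli.symm.trans h))).mul_left _
      · exact (h2 i l hl hli).mul_right _
  · rw [← sub_eq_zero, ← map_sum, ← map_one (aeval x : ℚ[X] →ₐ[ℚ] R), ← map_sub]
    refine aeval_zero_of_dvd hx (dvd_of_forall d m fun l hl => ?_)
    rw [← Finset.add_sum_erase _ _ hl, show ε l + ∑ i ∈ (Finset.range (2 * d + 1)).erase l, ε i - 1 =
      (ε l - 1) + ∑ i ∈ (Finset.range (2 * d + 1)).erase l, ε i by ring]
    exact dvd_add (h1 l hl) (Finset.dvd_sum fun i hi =>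
      h2 i l hl (Finset.ne_of_mem_erase hi).symm)
  · have e1 : (x - algebraMap ℚ R ((i : ℚ) - d)) ^ m = aeval x (fac d m i) := by
      rw [fac, map_pow, map_sub (aeval x : ℚ[X] →ₐ[ℚ] R) X, aeval_X, aeval_C]
    rw [e1, ← map_mul]
    refine aeval_zero_of_dvd hx (dvd_of_forall d m fun l hl => ?_)
    by_cases hli : l = i
    · subst hli
      exact dvd_mul_left _ _
    · exact (h2 i l hl hli).mul_right _
  · have e1 : aeval (-x) (ε i) = aeval x ((ε i).comp (-X)) := by
      rw [aeval_comp, map_neg, aeval_X]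
    rw [e1, ← sub_eq_zero, ← map_sub]
    refine aeval_zero_of_dvd hx (dvd_of_forall d m fun l hl => ?_)
    have hl' : 2 * d - l ∈ Finset.range (2 * d + 1) := by
      rw [Finset.mem_range] at hl ⊢
      omega
    have hll : l ≤ 2 * d := by
      rw [Finset.mem_range] at hl
      omega
    have e2 : fac d m l = (-1) ^ m * (fac d m (2 * d - l)).comp (-X) := by
      rw [fac, fac, pow_comp, sub_comp, X_comp, C_comp, ← mul_pow]
      congr 1
      have e3 : (((2 * d - l : ℕ) : ℚ) - d) = -((l : ℚ) - d) := by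
        rw [Nat.cast_sub hll]
        push_cast
        ring
      rw [e3, C_neg]
      ring
    have key : ∀ {P : ℚ[X]}, fac d m (2 * d - l) ∣ P → fac d m l ∣ P.comp (-X) := by
      rintro P ⟨c, rfl⟩
      rw [mul_comp, e2]
      refine ⟨(-1) ^ m * c.comp (-X), ?_⟩
      have e4 : ((-1 : ℚ[X]) ^ m) * (-1) ^ m = 1 := by
        rw [← mul_pow]; simp
      linear_combination (-(fac d m (2 * d - l)).comp (-X) * c.comp (-X)) * e4
    by_cases hli : 2 * d - l = i
    · subst hli
      have h4 := key (h1 _ hl')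
      rw [sub_comp, one_comp] at h4
      have h5 : 2 * d - (2 * d - l) = l := by omega
      rw [h5]
      have h6 := dvd_sub h4 (h1 l hl)
      rwa [show (ε (2 * d - l)).comp (-X) - 1 - (ε l - 1) = (ε (2 * d - l)).comp (-X) - ε l by
        ring] at h6
    · exact dvd_sub (key (h2 i _ hl' hli)) (h2 _ l hl (by omega))

end ring

section compress

variable {R S : Type*} [Ring R] [Algebra ℚ R] [Ring S] (ρ : R →+* S) (f : R)

/-- The span of the products `x (1 - f) l₁ ⋯ l_n (1 - f) y`, where `x`, `y` and the `l_i` are in the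
kernel of `ρ` and `l_i = (1 - f) l_i (1 - f)`. -/
def T (n : ℕ) : Submodule ℚ R :=
  Submodule.span ℚ {z | ∃ (x y : R) (l : List R), l.length = n ∧
    (∀ w ∈ l, ρ w = 0 ∧ (1 - f) * w * (1 - f) = w) ∧ ρ x = 0 ∧ ρ y = 0 ∧
    z = x * (1 - f) * l.prod * (1 - f) * y}

variable {ρ f}

lemma T_mul (hf : f * f = f) {n : ℕ} {z w : R} (hz : z ∈ T ρ f n) (hw : w ∈ T ρ f 0) :
    z * w ∈ T ρ f (n + 1) := by
  have hee : (1 - f) * (1 - f) = 1 - f := by
    rw [mul_sub, mul_one, sub_mul, one_mul, hf, sub_self, sub_zero]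
  induction hz using Submodule.span_induction with
  | mem z hz =>
    induction hw using Submodule.span_induction with
    | mem w hw =>
      obtain ⟨x, y, l, hl, h1, hx, hy, rfl⟩ := hz
      obtain ⟨x', y', l', hl', h1', hx', hy', rfl⟩ := hw
      rw [List.length_eq_zero_iff] at hl'
      subst hl'
      refine Submodule.subset_span ⟨x, y', l ++ [(1 - f) * (y * x') * (1 - f)], by simp [hl], ?_,
        hx, hy', ?_⟩
      · intro w hw
        rw [List.mem_append, List.mem_singleton] at hw
        rcases hw with hw | rfl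
        · exact h1 w hw
        · refine ⟨by simp [hy], ?_⟩
          calc (1 - f) * ((1 - f) * (y * x') * (1 - f)) * (1 - f)
              = ((1 - f) * (1 - f)) * (y * x') * ((1 - f) * (1 - f)) := by
                simp only [mul_assoc]
            _ = (1 - f) * (y * x') * (1 - f) := by rw [hee]
      · rw [List.prod_append, List.prod_singleton, List.prod_nil, mul_one]
        calc x * (1 - f) * l.prod * (1 - f) * y * (x' * (1 - f) * (1 - f) * y')
            = x * (1 - f) * l.prod * (1 - f) * y * (x' * ((1 - f) * (1 - f)) * y') := by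
              simp only [mul_assoc]
          _ = x * (1 - f) * l.prod * (1 - f) * y * (x' * (1 - f) * y') := by rw [hee]
          _ = x * (1 - f) * l.prod * (1 - f) * y * x' * (1 - f) * y' := by simp only [mul_assoc]
          _ = x * (1 - f) * l.prod * ((1 - f)) * y * x' * ((1 - f) * (1 - f)) * y' := by rw [hee]
          _ = x * (1 - f) * (l.prod * ((1 - f) * (y * x') * (1 - f))) * (1 - f) * y' := by
              simp only [mul_assoc]
    | zero => rw [mul_zero]; exact Submodule.zero_mem _
    | add a b _ _ ha hb => rw [mul_add]; exact Submodule.add_mem _ ha hb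
    | smul q a _ ha => rw [mul_smul_comm]; exact Submodule.smul_mem _ _ ha
  | zero => rw [zero_mul]; exact Submodule.zero_mem _
  | add a b _ _ ha hb => rw [add_mul]; exact Submodule.add_mem _ ha hb
  | smul q a _ ha => rw [smul_mul_assoc]; exact Submodule.smul_mem _ _ ha

lemma T_pow (hf : f * f = f) {z : R} (hz : z ∈ T ρ f 0) (n : ℕ) : z ^ (n + 1) ∈ T ρ f n := by
  induction n with
  | zero => rwa [zero_add, pow_one]
  | succ n ih => rw [pow_succ]; exact T_mul hf ih hz

lemma T_mul_right {z : R} (hz : z ∈ T ρ f 0) (r : R) : z * r ∈ T ρ f 0 := by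
  induction hz using Submodule.span_induction with
  | mem z hz =>
    obtain ⟨x, y, l, hl, h1, hx, hy, rfl⟩ := hz
    exact Submodule.subset_span ⟨x, y * r, l, hl, h1, hx, by rw [map_mul, hy, zero_mul], by
      simp only [mul_assoc]⟩
  | zero => rw [zero_mul]; exact Submodule.zero_mem _
  | add a b _ _ ha hb => rw [add_mul]; exact Submodule.add_mem _ ha hb
  | smul q a _ ha => rw [smul_mul_assoc]; exact Submodule.smul_mem _ _ ha

lemma compress_pow (hf : f * f = f) {D : R} (hD : ρ (f * D) = ρ (D * f)) (n : ℕ) :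
    f * D ^ n * f - (f * D * f) ^ n * f ∈ T ρ f 0 := by
  have hee : (1 - f) * (1 - f) = 1 - f := by
    rw [mul_sub, mul_one, sub_mul, one_mul, hf, sub_self, sub_zero]
  have hDn : ∀ n, ρ f * ρ (D ^ n) = ρ (D ^ n) * ρ f := by
    intro n
    induction n with
    | zero => simp
    | succ n ih =>
      rw [pow_succ, map_mul, ← mul_assoc, ih, mul_assoc, ← map_mul ρ f D, hD, map_mul, mul_assoc]
  induction n with
  | zero =>
    rw [pow_zero, pow_zero, mul_one, one_mul, hf, sub_self]
    exact Submodule.zero_mem _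
  | succ n ih =>
    have e1 : f * D ^ (n + 1) * f - (f * D * f) ^ (n + 1) * f =
        (f * D ^ n * f - (f * D * f) ^ n * f) * (D * f) +
          (f * D ^ n * (1 - f)) * (1 - f) * (1 : R) * (1 - f) * ((1 - f) * D * f) := by
      have e2 : (f * D * f) ^ (n + 1) * f = (f * D * f) ^ n * f * (D * f) := by
        rw [pow_succ]
        calc (f * D * f) ^ n * (f * D * f) * f = (f * D * f) ^ n * f * (D * (f * f)) := by
              simp only [mul_assoc]
          _ = (f * D * f) ^ n * f * (D * f) := by rw [hf]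
      have e3 : (f * D ^ n * (1 - f)) * (1 - f) * (1 : R) * (1 - f) * ((1 - f) * D * f) =
          f * D ^ n * (1 - f) * (D * f) := by
        calc (f * D ^ n * (1 - f)) * (1 - f) * (1 : R) * (1 - f) * ((1 - f) * D * f)
            = f * D ^ n * (((1 - f) * (1 - f)) * ((1 - f) * (1 - f))) * (D * f) := by
              simp only [mul_assoc, mul_one]
          _ = f * D ^ n * (1 - f) * (D * f) := by rw [hee, hee]
      rw [e2, e3, pow_succ]
      noncomm_ring
    rw [e1]
    refine Submodule.add_mem _ (T_mul_right ih _) (Submodule.subset_span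
      ⟨f * D ^ n * (1 - f), (1 - f) * D * f, [], rfl, by simp, ?_, ?_, by simp⟩)
    · rw [map_mul, map_mul, hDn, ← map_mul, ← map_mul, mul_assoc, mul_sub, mul_one, hf, sub_self,
        mul_zero, map_zero]
    · rw [mul_assoc, map_mul, ← hD, ← map_mul, ← mul_assoc, sub_mul, one_mul, hf, sub_self,
        zero_mul, map_zero]

/-- **Compression.** If `P(D) = 0` and `D` commutes with `f` modulo the kernel of `ρ`, then the
element `P(f D f) f` is nilpotent. -/
theorem compress_nilpotent (hf : f * f = f) {n : ℕ}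
    (hn : ∀ l : List R, l.length = n → (∀ w ∈ l, ρ w = 0 ∧ (1 - f) * w * (1 - f) = w) → l.prod = 0)
    {D : R} (hD : ρ (f * D) = ρ (D * f)) {P : ℚ[X]} (hP : aeval D P = 0) :
    (aeval (f * D * f) P * f) ^ (n + 1) = 0 := by
  have h1 : ∀ Q : ℚ[X], f * aeval D Q * f - aeval (f * D * f) Q * f ∈ T ρ f 0 := by
    intro Q
    induction Q using Polynomial.induction_on' with
    | add p q hp hq =>
      rw [map_add, map_add, mul_add, add_mul, add_mul, add_sub_add_comm]
      exact Submodule.add_mem _ hp hq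
    | monomial m q =>
      rw [← C_mul_X_pow_eq_monomial, map_mul, map_mul, aeval_C, aeval_C, map_pow, map_pow, aeval_X,
        aeval_X, ← Algebra.smul_def, ← Algebra.smul_def, mul_smul_comm, smul_mul_assoc,
        smul_mul_assoc, ← smul_sub]
      exact Submodule.smul_mem _ _ (compress_pow hf hD m)
  have h2 := h1 P
  rw [hP, mul_zero, zero_mul, zero_sub, Submodule.neg_mem_iff] at h2
  have h3 := T_pow hf h2 n
  have h4 : T ρ f n = ⊥ := by
    rw [T, Submodule.span_eq_bot]
    rintro z ⟨x, y, l, hl, h1, -, -, rfl⟩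
    rw [hn l hl h1, mul_zero, zero_mul, zero_mul]
  rw [h4, Submodule.mem_bot] at h3
  exact h3

end compress

end Pool.Agent.E870.SD
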