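import Pool.Agent.TH133.Defs

/-!
# Direct factors with nilpotent complement: definitions
-/

open CategoryTheory AlgebraicGeometry

universe u v w

namespace Pool.Agent.E870.SD

open Pool.Agent.H914 Pool.Agent.H914.VarClass Pool.Agent.H914.VarClass.Obj Pool.Agent.W492.BB
  Pool.Agent.W550.Corr Pool.Agent.TH133

variable {k : Type u} [Field k] {𝒱 : VarClass k}

/-- The complement `Δ_Y - q ᵗa ∘ … ∘ a` of the direct factor given by `a : h(X) → h(Y)` and its
transpose: `1 - q a ∘ ᵗa` as an endomorphism of `h(Y)`. -/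
noncomputable def complement (C : TheoryData.{u, v, 0} 𝒱 ℚ) {X Y : 𝒱.Obj} (a : C.A (X.prod Y))
    (q : ℚ) : C.A (Y.prod Y) := dg C Y - q • C.comp (tp C a) a

variable {C : TheoryData.{u, v, 0} 𝒱 ℚ} {K : Type w} [Field K] (H : WeilTheoryData.{u, v, w} C K)

/-- Any composition of `n` (for some `n`) homologically trivial self-correspondences `γ` of degree
zero of `Y` with `e ∘ γ ∘ e = γ` is zero: if `e` is idempotent, this says that the homologically
trivial endomorphisms of the motive `(Y, e)` form a nilpotent ideal. -/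
def HomNilpotent (Y : 𝒱.Obj) (e : C.A (Y.prod Y)) : Prop :=
  ∃ n : ℕ, ∀ l : List (C.A (Y.prod Y)), l.length = n →
    (∀ γ ∈ l, C.Deg Y.dim γ ∧ H.cl γ = 0 ∧ C.comp (C.comp e γ) e = γ) → compList C Y l = 0

/-- The Kunneth components of the diagonal of `Y` are algebraic. -/
def KunnethStd (Y : 𝒱.Obj) : Prop :=
  ∃ κ : ℕ → C.A (Y.prod Y), ∀ i, C.Deg Y.dim (κ i) ∧
    ∀ (m : ℤ) (a : H.A Y), H.Deg m a → H.act (H.cl (κ i)) a = if m = i then a else 0

/-- `Y` has a self-dual Chow-Kunneth decomposition. -/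
def HasSelfDualCK (Y : 𝒱.Obj) : Prop := ∃ π, IsCK H Y π ∧ IsSelfDual C (X := Y) π

/-- `h(X)` is, up to a rational factor isometrically, a direct factor of `h(Y)`: there are
`a : h(X) → h(Y)` of degree zero and `q ∈ ℚ` with `q ᵗa ∘ a = 1`; and the homologically trivial
endomorphisms of the complement are nilpotent. -/
def IsNilFactor (X Y : 𝒱.Obj) : Prop :=
  Y.dim = X.dim ∧ ∃ (a : C.A (X.prod Y)) (q : ℚ), C.Deg X.dim a ∧
    q • C.comp a (tp C a) = dg C X ∧ HomNilpotent H Y (complement C a q)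

end Pool.Agent.E870.SD
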