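import Pool.Agent.E870.SD.Up

/-!
# Self-dual Chow-Kunneth decompositions and direct factors with nilpotent complement: conclusion
-/

open CategoryTheory AlgebraicGeometry

universe u v w

namespace Pool.Agent.E870.SD

open Pool.Agent.H914 Pool.Agent.H914.VarClass Pool.Agent.H914.VarClass.Obj Pool.Agent.W492.BB
  Pool.Agent.W550.Corr Pool.Agent.TH133

set_option linter.unusedSectionVars false

variable {k : Type u} [Field k] {𝒱 : VarClass k}
variable {C : TheoryData.{u, v, 0} 𝒱 ℚ} [hC : IsChowProj C] {K : Type w} [Field K]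
  {H : WeilTheoryData.{u, v, w} C K} [hH : IsWeilProj H] {X Y Z W : 𝒱.Obj}

include hC hH

lemma kunnethStd_of_selfDual (h : HasSelfDualCK H Y) : KunnethStd H Y := by
  obtain ⟨π, hπ, -⟩ := h
  exact ⟨π, fun i => ⟨hπ.deg i, fun m a ha => hπ.actH_eq i m ha⟩⟩

theorem iff_of_nilFactor (h : IsNilFactor H X Y) :
    HasSelfDualCK H Y ↔ HasSelfDualCK H X ∧ KunnethStd H Y := by
  obtain ⟨hd, p, c, hp, hpq, hnil⟩ := h
  exact ⟨fun h => ⟨descend hd hp hpq hnil h, kunnethStd_of_selfDual h⟩,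
    fun h => ascend hd hp hpq hnil h.1 h.2⟩

omit hC hH in
lemma tp_cograph (C : TheoryData.{u, v, 0} 𝒱 ℚ) [hC : IsChowProj C] (f : Y ⟶ X) :
    tp C (C.cograph f) = C.graph f := by
  rw [tp_eq_push, TheoryData.cograph, TheoryData.graph, ← C.push_comp]
  congr 1
  have e1 : Obj.lift f (𝟙 Y) ≫ sw X Y = Obj.lift (𝟙 Y) f := by
    apply prod_ext <;> simp [sw, comp_lift]
  rw [e1]

theorem isNilFactor_of_cover (f : Y ⟶ X) (hd : Y.dim = X.dim) {N : ℚ} (hN : N ≠ 0)
    (hf : C.push f 1 = N • 1)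
    (h : HomNilpotent H Y (dg C Y - N⁻¹ • C.comp (C.graph f) (C.cograph f))) :
    IsNilFactor H X Y := by
  refine ⟨hd, C.cograph f, N⁻¹, Pool.Agent.Y107.cograph_mem f, ?_, ?_⟩
  · have h2 : C.mulCorr (N • (1 : C.A X)) = N • dg C X := map_smul (C.push _) _ _
    rw [tp_cograph, Pool.Agent.Y107.cograph_graph, hf, h2, smul_smul, inv_mul_cancel₀ hN, one_smul]
  · unfold complement
    rw [tp_cograph]
    exact h

theorem iff_of_chain (h : Relation.EqvGen (fun X Y : 𝒱.Obj => IsNilFactor H X Y ∧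
      (KunnethStd H X → KunnethStd H Y)) X Y) :
    HasSelfDualCK H X ↔ HasSelfDualCK H Y := by
  induction h with
  | rel X Y h =>
    rw [iff_of_nilFactor h.1]
    exact ⟨fun h1 => ⟨h1, h.2 (kunnethStd_of_selfDual h1)⟩, fun h1 => h1.1⟩
  | refl X => exact Iff.rfl
  | symm X Y _ ih => exact ih.symm
  | trans X Y Z _ _ ih1 ih2 => exact ih1.trans ih2

end Pool.Agent.E870.SD
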