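import Pool.Agent.E870.SD.Up
import Pool.Agent.X308.S.CK

/-!
# Self-dual Chow-Kunneth decompositions from the lower half
-/

open CategoryTheory AlgebraicGeometry

universe u v w

namespace Pool.Agent.E870.SD

open Pool.Agent.H914 Pool.Agent.H914.VarClass Pool.Agent.H914.VarClass.Obj Pool.Agent.W492.BB
  Pool.Agent.W550.Corr Pool.Agent.TH133 Pool.Agent.X308.S

set_option linter.unusedSectionVars false

variable {k : Type u} [Field k] {𝒱 : VarClass k}
variable {C : TheoryData.{u, v, 0} 𝒱 ℚ} [hC : IsChowProj C] {K : Type w} [Field K]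
  {H : WeilTheoryData.{u, v, w} C K} [hH : IsWeilProj H] {X Y Z W : 𝒱.Obj}

include hC hH

/-- **The lower half suffices.** Orthogonal idempotents `p 0, …, p (d - 1)` which act on the
cohomology as the Kunneth projectors, with `ᵗ(p j) ∘ p i = 0`. -/
theorem selfDual_of_lower {p : ℕ → Cor C X} (hm : ∀ n, p n ∈ cor0 C X)
    (hout : ∀ n, X.dim ≤ n → p n = 0) (hpp : ∀ m n, p m * p n = if m = n then p m else 0)
    (htp : ∀ m n, tpR C X (p m) * p n = 0)
    (hact : ∀ (n : ℕ), n < X.dim → ∀ (m : ℤ), ∀ a ∈ H.gr X m,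
      actH C X H (p n) a = if m = n then a else 0) : HasSelfDualCK H X := by
  let E : Cor C X := ∑ n ∈ Finset.range X.dim, p n
  have hE0 : E ∈ cor0 C X := Subalgebra.sum_mem _ fun n _ => hm n
  have hEE : ∀ n, p n * E = p n := by
    intro n
    rw [Finset.mul_sum]
    by_cases hn : n < X.dim
    · rw [Finset.sum_eq_single_of_mem n (Finset.mem_range.2 hn) (fun j _ hj => by
        rw [hpp, if_neg hj.symm]), hpp, if_pos rfl]
    · rw [hout n (by omega)]
      simp
  have hσE : ∀ n, tpR C X E * p n = 0 := by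
    intro n
    rw [map_sum, Finset.sum_mul]
    exact Finset.sum_eq_zero fun j _ => htp j n
  have hσEE : tpR C X E * E = 0 := by
    rw [Finset.mul_sum]
    exact Finset.sum_eq_zero fun j _ => hσE j
  have hσσ : ∀ n, tpR C X E * tpR C X (p n) = tpR C X (p n) := by
    intro n
    rw [← tpR_mul, hEE]
  let r : ℕ → Cor C X := fun n => p n - (2⁻¹ : ℚ) • (p n * tpR C X E)
  have hr : ∀ n, r n = p n - (2⁻¹ : ℚ) • (p n * tpR C X E) := fun n => rfl
  have hσr : ∀ n, tpR C X (r n) = tpR C X (p n) - (2⁻¹ : ℚ) • (E * tpR C X (p n)) := by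
    intro n
    rw [hr, map_sub, tpR_smul, tpR_mul, tpR_tpR]
  have hEgr : ∀ (m : ℤ), (X.dim : ℤ) ≤ m → ∀ a ∈ H.gr X m, actH C X H E a = 0 := by
    intro m hm a ha
    rw [map_sum, LinearMap.sum_apply]
    refine Finset.sum_eq_zero fun j hj => ?_
    rw [Finset.mem_range] at hj
    rw [hact j hj m a ha, if_neg (by omega)]
  have hσp : ∀ (n : ℕ), n < X.dim → ∀ (m : ℤ), ∀ a ∈ H.gr X m,
      actH C X H (tpR C X (p n)) a = if m = (2 * X.dim - n : ℕ) then a else 0 := by
    intro n hn m a ha
    rw [tp_scal (H := H) (s := fun m => if m = n then (1 : K) else 0) (fun m a ha => by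
      rw [hact n hn m a ha]
      split_ifs <;> simp) m ha]
    by_cases h : m = (2 * X.dim - n : ℕ)
    · rw [if_pos h]
      have h2 : 2 * (X.dim : ℤ) - m = n := by omega
      simp [h2]
    · rw [if_neg h]
      have h2 : ¬ (2 * (X.dim : ℤ) - m = n) := by omega
      simp [h2]
  have hσEgr : ∀ (m : ℤ), m ≤ X.dim → ∀ a ∈ H.gr X m, actH C X H (tpR C X E) a = 0 := by
    intro m hm a ha
    rw [map_sum, map_sum, LinearMap.sum_apply]
    refine Finset.sum_eq_zero fun j hj => ?_
    rw [Finset.mem_range] at hj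
    rw [hσp j hj m a ha, if_neg (by omega)]
  have hrm : ∀ n, r n ∈ cor0 C X := fun n =>
    Subalgebra.sub_mem _ (hm n) (Subalgebra.smul_mem _ (Subalgebra.mul_mem _ (hm n)
      (tpR_mem hE0)) _)
  refine selfDual_of_half (H := H) r hrm ?_ ?_ ?_ ?_ ?_ ?_
  · intro n hn
    rw [hr, hout n hn]
    simp
  · intro m n
    have h1 : r m * r n = p m * p n - (2⁻¹ : ℚ) • (p m * p n * tpR C X E) := by
      rw [hr, hr, mul_sub, sub_mul, sub_mul, smul_mul_assoc, smul_mul_assoc, mul_smul_comm,
        mul_assoc (p m) (tpR C X E) (p n), hσE, mul_zero, smul_zero, sub_zero, mul_smul_comm,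
        mul_assoc (p m) (tpR C X E), ← mul_assoc (tpR C X E) (p n), hσE, zero_mul, mul_zero,
        smul_zero, smul_zero, sub_zero, mul_assoc]
    rw [h1, hpp]
    split_ifs with h
    · rfl
    · simp
  · intro m n
    rw [hr, hσr, mul_sub, sub_mul, sub_mul, smul_mul_assoc, mul_smul_comm, mul_smul_comm,
      smul_mul_assoc, mul_assoc (p m) (tpR C X E) (tpR C X (p n)), hσσ, ← mul_assoc (p m) E, hEE,
      mul_assoc (p m) (tpR C X E) (E * _), ← mul_assoc (tpR C X E) E, hσEE, zero_mul, mul_zero,
      smul_zero, smul_zero, sub_zero, sub_sub, ← add_smul]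
    norm_num
  · intro m n
    rw [hr, hσr, mul_sub, sub_mul, mul_smul_comm, smul_mul_assoc, mul_assoc E, htp, mul_zero,
      smul_zero, sub_zero, sub_mul, ← mul_assoc (tpR C X (p m)) (p n), htp, zero_mul, smul_mul_assoc,
      mul_assoc E, ← mul_assoc (tpR C X (p m)) (p n), htp, zero_mul, mul_zero, smul_zero, sub_zero,
      smul_zero, sub_zero]
  · intro n m a hn ha
    have h1 : actH C X H (p n * tpR C X E) a = 0 := by
      rw [map_mul, Module.End.mul_apply]
      by_cases hmd : m ≤ X.dim
      · rw [hσEgr m hmd a ha, map_zero]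
      · rw [hact n hn m _ (actH_mem0 (tpR_mem hE0) ha), if_neg (by omega)]
    have h2 : (2 : ℕ) • r n = (2 : ℕ) • p n - p n * tpR C X E := by
      rw [hr, smul_sub, ← Nat.cast_smul_eq_nsmul ℚ 2 ((2⁻¹ : ℚ) • (p n * tpR C X E)), smul_smul]
      norm_num
    have h3 := congrArg (fun z : Cor C X => actH C X H z a) h2
    simp only [map_nsmul, map_sub, LinearMap.smul_apply, LinearMap.sub_apply] at h3
    rw [h1, sub_zero, hact n hn m a ha, ← Nat.cast_smul_eq_nsmul K, ← Nat.cast_smul_eq_nsmul K] at h3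
    have h5 : ((2 : ℕ) : K) ≠ 0 := Pool.Agent.Y107.charZero_coeff H X 2 two_ne_zero
    exact smul_right_injective _ h5 h3
  · intro n m a hn ha
    have h1 : actH C X H (E * tpR C X (p n)) a = 0 := by
      rw [map_mul, Module.End.mul_apply, hσp n hn m a ha]
      split_ifs with h
      · exact hEgr m (by omega) a ha
      · rw [map_zero]
    have h2 : (2 : ℕ) • tpR C X (r n) = (2 : ℕ) • tpR C X (p n) - E * tpR C X (p n) := by
      rw [hσr, smul_sub, ← Nat.cast_smul_eq_nsmul ℚ 2 ((2⁻¹ : ℚ) • (E * tpR C X (p n))), smul_smul]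
      norm_num
    have h3 := congrArg (fun z : Cor C X => actH C X H z a) h2
    simp only [map_nsmul, map_sub, LinearMap.smul_apply, LinearMap.sub_apply] at h3
    rw [h1, sub_zero, hσp n hn m a ha, ← Nat.cast_smul_eq_nsmul K, ← Nat.cast_smul_eq_nsmul K] at h3
    have h5 : ((2 : ℕ) : K) ≠ 0 := Pool.Agent.Y107.charZero_coeff H X 2 two_ne_zero
    exact smul_right_injective _ h5 h3

/-- **Self-dual decompositions if the lower half is dominated by surfaces.** -/
theorem selfDual_of_surfaces (hS : SurfaceProperties H) {e : C.A (X.prod X)}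
    (hee : C.comp e e = e) (he : e ∈ throughSurfaces C X)
    (hact : ∀ (m : ℤ) (a : H.A X), H.Deg m a →
      H.act (H.cl e) a = if m < X.dim then a else 0) : HasSelfDualCK H X := by
  obtain ⟨s, q, h1, h2, h3, h4⟩ := exists_weights (H := H) hS (p := e) hee he
  have hq : ∀ {w m : ℤ} {a : H.A X}, a ∈ H.gr X m → m ≠ w → actH C X H (q w) a = 0 :=
    fun {w m a} ha hm => wt_actH (h1 w) ha hm
  have hwt : ∀ n : ℕ, ((if n < X.dim then q n else 0 : Cor C X) : C.A (X.prod X)) ∈
      wt H X (n : ℤ) := by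
    intro n
    split_ifs
    · exact h1 n
    · exact Submodule.zero_mem _
  refine selfDual_of_lower (H := H) (p := fun n => if n < X.dim then q n else 0) ?_ ?_ ?_ ?_ ?_
  · exact fun n => wt_mem (hwt n)
  · intro n hn
    rw [if_neg (by omega)]
  · intro m n
    by_cases hm : m < X.dim
    · by_cases hn : n < X.dim
      · simp only [if_pos hm, if_pos hn]
        rw [h3]
        by_cases hmn : m = n
        · subst hmn; simp
        · rw [if_neg hmn, if_neg (by exact_mod_cast hmn)]
      · simp only [if_neg hn, mul_zero]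
        rw [if_neg (by omega)]
    · simp only [if_neg hm, zero_mul]
      split_ifs <;> rfl
  · intro m n
    by_cases hm : m < X.dim
    · by_cases hn : n < X.dim
      · have h5 := wt_tp (w' := 2 * X.dim - m) (hwt m) (by ring)
        exact wt_tri hS (by omega) (hwt n) h5
      · simp only [if_neg hn, mul_zero]
    · simp only [if_neg hm, map_zero, zero_mul]
  · intro n hn m a ha
    simp only [if_pos hn]
    split_ifs with hm
    · subst hm
      have h6 : actH C X H e a = ∑ w ∈ s, actH C X H (q w) a := by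
        have h7 : (e : Cor C X) = ∑ w ∈ s, q w := h4.symm
        rw [h7, map_sum, LinearMap.sum_apply]
      have h8 : actH C X H e a = a := by
        have := hact n a ha
        rwa [if_pos (by exact_mod_cast hn)] at this
      rw [h8] at h6
      by_cases hns : (n : ℤ) ∈ s
      · rw [Finset.sum_eq_single_of_mem (n : ℤ) hns (fun w _ hw => hq ha hw.symm)] at h6
        exact h6.symm
      · rw [Finset.sum_eq_zero (fun w hw => hq ha (fun h => hns (h ▸ hw)))] at h6
        rw [h2 _ hns, map_zero, LinearMap.zero_apply, h6]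
    · exact hq ha hm

end Pool.Agent.E870.SD
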