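import Pool.Agent.X308.S.Defs

/-!
# The lower half of a Chow-Kunneth decomposition: definition
-/

open CategoryTheory AlgebraicGeometry

universe u v w

namespace Pool.Agent.E870.SD

open Pool.Agent.H914 Pool.Agent.H914.VarClass Pool.Agent.H914.VarClass.Obj Pool.Agent.W492.BB
  Pool.Agent.W550.Corr Pool.Agent.TH133 Pool.Agent.X308.S

variable {k : Type u} [Field k] {𝒱 : VarClass k}
variable {C : TheoryData.{u, v, 0} 𝒱 ℚ} {K : Type w} [Field K] (H : WeilTheoryData.{u, v, w} C K)

/-- Orthogonal idempotent correspondences `p 0, …, p (dim X - 1)` of degree zero such that `p i`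
acts as the identity on `H^i(X)` and as zero on the other `H^m(X)`. -/
structure IsLowerHalf (X : 𝒱.Obj) (p : ℕ → C.A (X.prod X)) : Prop where
  deg : ∀ i < X.dim, C.Deg X.dim (p i)
  idem : ∀ i < X.dim, C.comp (p i) (p i) = p i
  orth : ∀ i < X.dim, ∀ j < X.dim, i ≠ j → C.comp (p i) (p j) = 0
  act : ∀ i < X.dim, ∀ (m : ℤ) (a : H.A X), H.Deg m a →
    H.act (H.cl (p i)) a = if m = i then a else 0

/-- `z` factors through sums of twists of motives of surfaces. -/
def ViaSurfaces {X : 𝒱.Obj} (z : C.A (X.prod X)) : Prop := z ∈ throughSurfaces C X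

end Pool.Agent.E870.SD
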