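import Pool.Agent.E870.SD.Half
import Pool.Agent.E870.SD.HalfDefs

/-!
# Self-dual Chow-Kunneth decompositions from the lower half: conclusion
-/

open CategoryTheory AlgebraicGeometry

universe u v w

namespace Pool.Agent.E870.SD

open Pool.Agent.H914 Pool.Agent.H914.VarClass Pool.Agent.H914.VarClass.Obj Pool.Agent.W492.BB
  Pool.Agent.W550.Corr Pool.Agent.TH133 Pool.Agent.X308.S

set_option linter.unusedSectionVars false

variable {k : Type u} [Field k] {𝒱 : VarClass k}
variable {C : TheoryData.{u, v, 0} 𝒱 ℚ} [hC : IsChowProj C] {K : Type w} [Field K]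
  {H : WeilTheoryData.{u, v, w} C K} [hH : IsWeilProj H] {X Y Z W : 𝒱.Obj}

include hC hH

theorem selfDual_of_lower' {p : ℕ → C.A (X.prod X)} (hp : IsLowerHalf H X p)
    (h : ∀ m < X.dim, ∀ n < X.dim, C.comp (p n) (tp C (p m)) = 0) : HasSelfDualCK H X := by
  let P : ℕ → Cor C X := p
  have hmul : ∀ m < X.dim, ∀ n < X.dim, P m * P n = if m = n then P m else 0 := by
    intro m hm n hn
    split_ifs with hmn
    · subst hmn
      exact hp.idem m hm
    · exact hp.orth n hn m hm (fun h => hmn h.symm)
  have htp : ∀ m < X.dim, ∀ n < X.dim, tpR C X (P m) * P n = 0 := fun m hm n hn => h m hm n hn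
  refine selfDual_of_lower (H := H) (p := fun n => if n < X.dim then P n else 0) ?_ ?_ ?_ ?_ ?_
  · intro n
    by_cases hn : n < X.dim
    · simp only [if_pos hn]
      exact hp.deg n hn
    · simp only [if_neg hn]
      exact (cor0 C X).zero_mem
  · intro n hn
    rw [if_neg (by omega)]
  · intro m n
    by_cases hm : m < X.dim
    · by_cases hn : n < X.dim
      · simp only [if_pos hm, if_pos hn]
        exact hmul m hm n hn
      · simp only [if_neg hn, mul_zero]
        rw [if_neg (by omega)]
    · simp only [if_neg hm, zero_mul]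
      split_ifs <;> rfl
  · intro m n
    by_cases hm : m < X.dim
    · by_cases hn : n < X.dim
      · simp only [if_pos hm, if_pos hn]
        exact htp m hm n hn
      · simp only [if_neg hn, mul_zero]
    · simp only [if_neg hm, map_zero, zero_mul]
  · intro n hn m a ha
    simp only [if_pos hn]
    exact hp.act n hn m a ha

theorem selfDual_of_threefold (hS : SurfaceProperties H) (hd : X.dim = 3)
    (hBS : ∀ z : C.A (X.prod X), C.Deg 3 z → (∀ x : C.A X, C.Deg 3 x → C.act z x = 0) →
      z ∈ throughSurfaces C X) {π : ℕ → C.A (X.prod X)} (hπ : IsCK H X π)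
    (h0 : ∀ i < 3, ∀ x : C.A X, C.Deg 3 x → C.act (π i) x = 0) : HasSelfDualCK H X := by
  let P : ℕ → Cor C X := π
  have hmul : ∀ i j, P i * P j = if i = j then P i else 0 := fun i j => hπ.mul_eq i j
  have hdeg : ∀ i, C.Deg 3 (π i) := fun i => by
    have := hπ.deg i
    rw [hd] at this
    exact this
  have hee : (∑ i ∈ Finset.range 3, P i) * (∑ i ∈ Finset.range 3, P i) =
      ∑ i ∈ Finset.range 3, P i := by
    rw [Finset.sum_mul]
    refine Finset.sum_congr rfl fun i hi => ?_
    rw [Finset.mul_sum, Finset.sum_eq_single_of_mem i hi (fun j _ hj => by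
      rw [hmul, if_neg hj.symm]), hmul, if_pos rfl]
  refine selfDual_of_surfaces (H := H) (e := ∑ i ∈ Finset.range 3, π i) hS hee ?_ ?_
  · refine hBS _ (Submodule.sum_mem _ fun i _ => hdeg i) fun x hx => ?_
    rw [act_sum]
    exact Finset.sum_eq_zero fun i hi => h0 i (Finset.mem_range.1 hi) x hx
  · intro m a ha
    have h6 : actH C X H (∑ i ∈ Finset.range 3, P i) a =
        ∑ i ∈ Finset.range 3, (if m = i then a else 0) := by
      rw [map_sum, LinearMap.sum_apply]
      exact Finset.sum_congr rfl fun i _ => hπ.actH_eq i m ha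
    have h7 : H.act (H.cl (∑ i ∈ Finset.range 3, π i)) a =
        ∑ i ∈ Finset.range 3, (if m = i then a else 0) := h6
    rw [h7, hd]
    by_cases ha0 : a = 0
    · subst ha0; simp
    have hm0 := nonneg_of_mem H ha ha0
    obtain ⟨j, rfl⟩ := Int.eq_ofNat_of_zero_le hm0
    by_cases hj : j < 3
    · rw [if_pos (by exact_mod_cast hj), Finset.sum_eq_single_of_mem j (Finset.mem_range.2 hj)
        (fun i _ hij => by rw [if_neg (by exact_mod_cast hij.symm)]), if_pos rfl]
    · rw [if_neg (by exact_mod_cast hj)]
      refine Finset.sum_eq_zero fun i hi => ?_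
      rw [Finset.mem_range] at hi
      rw [if_neg (by intro h; have : j = i := by exact_mod_cast h
                     omega)]

end Pool.Agent.E870.SD
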