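import Pool.Agent.E870.SD.Op

/-!
# Self-dual Chow-Kunneth decompositions and direct factors with nilpotent complement
-/

open CategoryTheory AlgebraicGeometry Polynomial

universe u v w

namespace Pool.Agent.E870.SD

open Pool.Agent.H914 Pool.Agent.H914.VarClass Pool.Agent.H914.VarClass.Obj Pool.Agent.W492.BB
  Pool.Agent.W550.Corr Pool.Agent.TH133

set_option linter.unusedSectionVars false

variable {k : Type u} [Field k] {𝒱 : VarClass k}
variable {C : TheoryData.{u, v, 0} 𝒱 ℚ} [hC : IsChowProj C] {K : Type w} [Field K]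
  {H : WeilTheoryData.{u, v, w} C K} [hH : IsWeilProj H] {X Y Z W : 𝒱.Obj}

section chow

/-- `z ↦ q ∘ z ∘ p` for correspondences `p : X → Y`, `q : Y → X`. -/
noncomputable def cnj (p : C.A (X.prod Y)) (q : C.A (Y.prod X)) : Cor C Y →ₗ[ℚ] Cor C X :=
  ((compL C (X := X) (Y := Y) (Z := X)).flip q) ∘ₗ (compL C (X := X) (Y := Y) (Z := Y) p)

lemma cnj_apply (p : C.A (X.prod Y)) (q : C.A (Y.prod X)) (z : Cor C Y) :
    cnj p q z = C.comp (X := X) (Y := Y) (Z := X) (C.comp (X := X) (Y := Y) (Z := Y) p z) q := rfl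

lemma smul_comp' (c : ℚ) (Γ : C.A (X.prod Y)) (Δ : C.A (Y.prod Z)) :
    C.comp (c • Γ) Δ = c • C.comp Γ Δ := LinearMap.map_smul₂ (compL C) _ _ _

lemma comp_smul' (c : ℚ) (Γ : C.A (X.prod Y)) (Δ : C.A (Y.prod Z)) :
    C.comp Γ (c • Δ) = c • C.comp Γ Δ := map_smul (compL C Γ) _ _

include hC

variable {p : C.A (X.prod Y)} {q : C.A (Y.prod X)}

lemma comp_cancel (h : C.comp p q = dg C X) (z : C.A (X.prod X)) :
    C.comp p (C.comp (C.comp q z) p) = C.comp z p := by
  rw [← comp_assoc C, ← comp_assoc C, h, dg_comp]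

/-- If `q ∘ p = 1` on `h(X)` then `z ↦ p ∘ z ∘ q` is multiplicative. -/
lemma cnj_mul (h : C.comp p q = dg C X) (z z' : Cor C X) :
    cnj q p (z * z') = cnj q p z * cnj q p z' := by
  rw [cor_mul, cor_mul, cnj_apply, cnj_apply, cnj_apply]
  have h1 := comp_cancel h z
  rw [comp_assoc C (C.comp q z') p, h1, ← comp_assoc C q z' z, comp_assoc C (C.comp q z') z p]

lemma cnj_cnj_left (h : C.comp p q = dg C X) (z : Cor C X) : cnj p q (cnj q p z) = z := by
  rw [cnj_apply, cnj_apply]
  have h1 := comp_cancel h z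
  rw [h1, comp_assoc C, h, comp_dg]

variable (p q) in
/-- The endomorphism `p ∘ q` of `h(Y)`. -/
noncomputable def idm : Cor C Y := C.comp (X := Y) (Y := X) (Z := Y) q p

lemma cnj_one : cnj q p (1 : Cor C X) = idm p q := by
  rw [cnj_apply, cor_one, comp_dg]
  rfl

lemma cnj_cnj_right (w : Cor C Y) : cnj q p (cnj p q w) = idm p q * w * idm p q := by
  rw [cnj_apply, cnj_apply, cor_mul, cor_mul]
  unfold idm
  rw [comp_assoc C p w q, ← comp_assoc C q p, comp_assoc C (C.comp q p) (C.comp w q) p,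
    comp_assoc C w q p]

lemma idm_idm (h : C.comp p q = dg C X) : idm p q * idm p q = idm p q := by
  rw [← cnj_one, ← cnj_mul h, one_mul]

lemma cnj_idm (h : C.comp p q = dg C X) (z : Cor C X) : cnj q p z * idm p q = cnj q p z := by
  rw [← cnj_one, ← cnj_mul h, mul_one]

lemma idm_cnj (h : C.comp p q = dg C X) (z : Cor C X) : idm p q * cnj q p z = cnj q p z := by
  rw [← cnj_one, ← cnj_mul h, one_mul]

lemma cnj_pow (h : C.comp p q = dg C X) (z : Cor C X) (n : ℕ) :
    cnj q p (z ^ (n + 1)) = (cnj q p z) ^ (n + 1) := by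
  induction n with
  | zero => simp
  | succ n ih => rw [pow_succ, cnj_mul h, ih, ← pow_succ]

lemma cnj_aeval (h : C.comp p q = dg C X) (D : Cor C Y) (P : ℚ[X]) :
    cnj q p (aeval (cnj p q D) P) = aeval (idm p q * D * idm p q) P * idm p q := by
  have hpow : ∀ m : ℕ, cnj q p ((cnj p q D) ^ m) = (idm p q * D * idm p q) ^ m * idm p q := by
    intro m
    induction m with
    | zero => rw [pow_zero, pow_zero, cnj_one, one_mul]
    | succ m ih =>
      rw [pow_succ, cnj_mul h, ih, cnj_cnj_right, pow_succ]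
      calc (idm p q * D * idm p q) ^ m * idm p q * (idm p q * D * idm p q)
          = (idm p q * D * idm p q) ^ m * ((idm p q * idm p q) * D * idm p q) := by
            simp only [mul_assoc]
        _ = (idm p q * D * idm p q) ^ m * (idm p q * D * (idm p q * idm p q)) := by
            rw [idm_idm h]
        _ = _ := by simp only [mul_assoc]
  induction P using Polynomial.induction_on' with
  | add a b ha hb => rw [map_add, map_add, map_add, ha, hb, add_mul]
  | monomial m c =>
    rw [aeval_monomial, aeval_monomial, ← Algebra.smul_def, ← Algebra.smul_def, map_smul, hpow,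
      smul_mul_assoc]

/-- The value of a polynomial at `cnj q p D`. -/
lemma aeval_cnj (h : C.comp p q = dg C X) (D : Cor C X) (P : ℚ[X]) :
    aeval (cnj q p D) P = cnj q p (aeval D P) + P.eval 0 • (1 - idm p q) := by
  induction P using Polynomial.induction_on' with
  | add a b ha hb => rw [map_add, map_add, map_add, ha, hb, eval_add, add_smul]; abel
  | monomial m c =>
    rw [aeval_monomial, aeval_monomial, ← Algebra.smul_def, ← Algebra.smul_def, map_smul]
    rcases m with _ | m
    · rw [pow_zero, pow_zero, cnj_one, monomial_zero_left, eval_C, ← smul_add]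
      congr 1
      abel
    · rw [cnj_pow h, eval_monomial, zero_pow (by omega), mul_zero, zero_smul, add_zero]

lemma tpR_cnj {c : ℚ} (z : Cor C X) :
    tpR C Y (cnj (c • tp C p) p z) = cnj (c • tp C p) p (tpR C X z) := by
  rw [tpR_apply, tpR_apply, cnj_apply, cnj_apply, tp_comp C (ch_comm C), tp_comp C (ch_comm C),
    tp_smul, tp_tp, smul_comp', smul_comp', comp_smul', comp_smul', comp_assoc C]

lemma tpR_cnj' {c : ℚ} (w : Cor C Y) :
    tpR C X (cnj p (c • tp C p) w) = cnj p (c • tp C p) (tpR C Y w) := by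
  rw [tpR_apply, tpR_apply, cnj_apply, cnj_apply, tp_comp C (ch_comm C), tp_comp C (ch_comm C),
    tp_smul, tp_tp, smul_comp', comp_smul', comp_assoc C]

/-- The composition of a list of correspondences as an element of the ring. -/
noncomputable def cprod (l : List (Cor C Y)) : Cor C Y := compList C Y l

lemma cprod_eq (l : List (Cor C Y)) : cprod l = l.reverse.prod := by
  induction l with
  | nil => rfl
  | cons γ l ih =>
    have h1 : cprod (γ :: l) = cprod l * γ := rfl
    rw [h1, ih, List.reverse_cons, List.prod_append, List.prod_singleton]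

end chow

include hC hH

/-- The action of correspondences of degree zero on the cohomology. -/
noncomputable def rho (H : WeilTheoryData.{u, v, w} C K) [hH : IsWeilProj H] (Y : 𝒱.Obj) :
    cor0 C Y →+* Module.End K (H.A Y) := (actH C Y H).comp (cor0 C Y).subtype

lemma rho_apply (z : cor0 C Y) : rho H Y z = actH C Y H z.1 := rfl

lemma prod_zero {p : C.A (X.prod Y)} {c : ℚ} {n : ℕ} (hn : ∀ l : List (C.A (Y.prod Y)),
    l.length = n → (∀ γ ∈ l, C.Deg Y.dim γ ∧ H.cl γ = 0 ∧
      C.comp (C.comp (complement C p c) γ) (complement C p c) = γ) → compList C Y l = 0)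
    {f : cor0 C Y} (hf : (1 - f : cor0 C Y).1 = (complement C p c : Cor C Y))
    (l : List (cor0 C Y)) (hl : l.length = n)
    (h : ∀ w ∈ l, rho H Y w = 0 ∧ (1 - f) * w * (1 - f) = w) : l.prod = 0 := by
  have h1 := hn (show List (C.A (Y.prod Y)) from (l.map Subtype.val).reverse) (by
      show (l.map Subtype.val).reverse.length = n
      rw [List.length_reverse, List.length_map, hl]) (by
    intro γ hγ
    have h0 : ∃ w ∈ l, w.1 = γ := List.mem_map.1
      ((List.mem_reverse (α := Cor C Y) (x := γ) (as := l.map Subtype.val)).1 hγ)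
    obtain ⟨w, hw, rfl⟩ := h0
    obtain ⟨h2, h3⟩ := h w hw
    refine ⟨w.2, hom_zero_of_act H fun a => ?_, ?_⟩
    · exact congrArg (fun g : Module.End K (H.A Y) => g a) h2
    · have h4 := congrArg Subtype.val h3
      have h5 : ((1 - f) * w * (1 - f) : cor0 C Y).1 = (1 - f : cor0 C Y).1 * w.1 * (1 - f : cor0 C Y).1 :=
        rfl
      rw [h5, hf, cor_mul, cor_mul] at h4
      rw [comp_assoc C]
      exact h4)
  have h1' : cprod (l.map Subtype.val).reverse = 0 := h1
  rw [cprod_eq] at h1'
  rw [List.reverse_reverse] at h1'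
  apply Subtype.ext
  have h2 : (l.prod : cor0 C Y).1 = (l.map Subtype.val).prod := by
    have := map_list_prod (cor0 C Y).subtype l
    exact this
  rw [h2]
  exact h1'

lemma gr_pres {p : C.A (X.prod Y)} (hp : p ∈ C.gr (X.prod Y) X.dim) {m : ℤ} {a : H.A X}
    (ha : a ∈ H.gr X m) : H.act (H.cl p) a ∈ H.gr Y m := by
  have h1 := actH_mem H (e := 0) (Γ := p) (by rwa [add_zero]) ha
  rwa [mul_zero, add_zero] at h1

lemma actH_cnj (p : C.A (X.prod Y)) (q : C.A (Y.prod X)) (D : Cor C Y) (a : H.A X) :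
    actH C X H (cnj p q D) a =
      H.act (H.cl q) (actH C Y H D (H.act (H.cl p) a)) := by
  rw [actH_apply, cnj_apply, actH_comp, actH_comp]
  rfl

lemma actH_idm (p : C.A (X.prod Y)) (q : C.A (Y.prod X)) (a : H.A Y) :
    actH C Y H (idm p q) a = H.act (H.cl p) (H.act (H.cl q) a) := by
  rw [actH_apply, idm, actH_comp]

/-- **Descent.** -/
theorem descend (hd : Y.dim = X.dim) {p : C.A (X.prod Y)} {c : ℚ}
    (hp : p ∈ C.gr (X.prod Y) X.dim) (hpq : c • C.comp p (tp C p) = dg C X)
    (hnil : HomNilpotent H Y (complement C p c)) (h : HasSelfDualCK H Y) : HasSelfDualCK H X := by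
  obtain ⟨n, hn⟩ := hnil
  obtain ⟨D, hD0, hDt, hDw, hDz⟩ := op_of_selfDual h
  set q : C.A (Y.prod X) := c • tp C p with hq
  have h1 : C.comp p q = dg C X := by rw [hq, comp_smul']; exact hpq
  have hq0 : q ∈ C.gr (Y.prod X) Y.dim := by
    rw [hd]
    exact Submodule.smul_mem _ _ (tp_mem C hp)
  have hf0 : idm p q ∈ cor0 C Y := by
    have h2 : C.comp q p ∈ C.gr (Y.prod Y) (Y.dim + (0 + 0)) :=
      comp_mem C (e := 0) (e' := 0) (Γ := q) (Δ := p) (by rwa [add_zero]) (by rwa [add_zero])
    rw [add_zero, add_zero] at h2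
    exact h2
  have hx0 : cnj p q D ∈ cor0 C X := by
    have h2 : C.comp p (D : C.A (Y.prod Y)) ∈ C.gr (X.prod Y) (X.dim + (0 + 0)) :=
      comp_mem C (e := 0) (e' := 0) (Γ := p) (Δ := (D : C.A (Y.prod Y)))
        (by rwa [add_zero]) (by rw [add_zero]; exact hD0)
    have h3 : C.comp (C.comp p (D : C.A (Y.prod Y))) q ∈ C.gr (X.prod X) (X.dim + (0 + 0 + 0)) :=
      comp_mem C (e := 0 + 0) (e' := 0) (Δ := q) h2 (by rwa [add_zero])
    rw [add_zero, add_zero, add_zero] at h3
    exact h3
  have hcomm : ∀ a : H.A Y, actH C Y H (idm p q * D) a = actH C Y H (D * idm p q) a := by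
    have h2 : actH C Y H (idm p q * D) = actH C Y H (D * idm p q) := by
      apply ext_gr H
      intro m a ha
      rw [map_mul, map_mul, Module.End.mul_apply, Module.End.mul_apply, hDw m a ha, map_smul,
        hDw m _ (actH_mem0 hf0 ha)]
    intro a
    rw [h2]
  let f0 : cor0 C Y := ⟨idm p q, hf0⟩
  let D0 : cor0 C Y := ⟨D, hD0⟩
  have hce : (1 - f0 : cor0 C Y).1 = (complement C p c : Cor C Y) := by
    have h2 : (1 - f0 : cor0 C Y).1 = (1 : Cor C Y) - idm p q := rfl
    rw [h2]
    unfold complement idm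
    rw [hq, smul_comp']
    rfl
  have key := compress_nilpotent (ρ := rho H Y) (f := f0) (Subtype.ext (idm_idm h1)) (n := n)
    (fun l hl hl' => prod_zero hn hce l hl hl') (D := D0)
    (LinearMap.ext fun a => hcomm a) (P := wpol Y.dim) (by
      apply Subtype.ext
      have h2 := Polynomial.aeval_algHom_apply (cor0 C Y).val D0 (wpol Y.dim)
      have h3 : (cor0 C Y).val D0 = D := rfl
      rw [h3, hDz] at h2
      exact h2.symm)
  have h4 : (aeval (idm p q * D * idm p q) (wpol Y.dim) * idm p q) ^ (n + 1) = 0 := by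
    have h2 := congrArg (cor0 C Y).val key
    rw [map_pow, map_mul, ← Polynomial.aeval_algHom_apply, map_zero] at h2
    exact h2
  rw [← cnj_aeval h1, ← cnj_pow h1] at h4
  have h5 := congrArg (cnj p q) h4
  rw [cnj_cnj_left h1, map_zero, hd] at h5
  refine selfDual_of_op hx0 ?_ ?_ h5
  · rw [hq, tpR_cnj', hDt, map_neg]
  · intro m a ha
    have ha' := gr_pres hp ha
    have h6 : H.act (H.cl q) (((m - Y.dim : ℤ) : K) • H.act (H.cl p) a) =
        ((m - Y.dim : ℤ) : K) • H.act (H.cl q) (H.act (H.cl p) a) :=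
      map_smul (H.actL (X := Y) (Y := X) (H.cl q)) _ _
    rw [actH_cnj, hDw m _ ha', h6, hd]
    congr 1
    rw [← actH_comp, h1, actH_dg]

end Pool.Agent.E870.SD
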