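import Pool.Agent.E870.SD.Alg
import Pool.Agent.E870.SD.Defs
import Pool.Agent.Y107.SDMul

/-!
# Self-dual Chow-Kunneth decompositions and skew-symmetric weight operators
-/

open CategoryTheory AlgebraicGeometry Polynomial

universe u v w

namespace Pool.Agent.E870.SD

open Pool.Agent.H914 Pool.Agent.H914.VarClass Pool.Agent.H914.VarClass.Obj Pool.Agent.W492.BB
  Pool.Agent.W550.Corr Pool.Agent.TH133

set_option linter.unusedSectionVars false

variable {k : Type u} [Field k] {𝒱 : VarClass k}
variable {C : TheoryData.{u, v, 0} 𝒱 ℚ} [hC : IsChowProj C] {K : Type w} [Field K]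
  {H : WeilTheoryData.{u, v, w} C K} [hH : IsWeilProj H] {X Y Z W : 𝒱.Obj}

section chow

include hC

lemma tpR_pow (x : Cor C X) (n : ℕ) : tpR C X (x ^ n) = (tpR C X x) ^ n := by
  induction n with
  | zero => rw [pow_zero, pow_zero, tpR_one]
  | succ n ih => rw [pow_succ, tpR_mul, ih, pow_succ']

lemma tpR_aeval (x : Cor C X) (P : ℚ[X]) : tpR C X (aeval x P) = aeval (tpR C X x) P := by
  induction P using Polynomial.induction_on' with
  | add p q hp hq => rw [map_add, map_add, map_add, hp, hq]
  | monomial m q =>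
    rw [aeval_monomial, aeval_monomial, ← Algebra.smul_def, ← Algebra.smul_def, tpR_smul, tpR_pow]

lemma aeval_mem_cor0 {x : Cor C X} (hx : x ∈ cor0 C X) (P : ℚ[X]) : aeval x P ∈ cor0 C X :=
  (Algebra.adjoin_le (Set.singleton_subset_iff.2 hx) :
    Algebra.adjoin ℚ {x} ≤ cor0 C X) (Polynomial.aeval_mem_adjoin_singleton ℚ x)

end chow

/-- A weight operator: it acts on `H^m(X)` as multiplication by `m - dim X`. -/
def ActsAsWeight (H : WeilTheoryData.{u, v, w} C K) [hH : IsWeilProj H] (X : 𝒱.Obj)
    (D : Cor C X) : Prop :=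
  ∀ (m : ℤ), ∀ a ∈ H.gr X m, actH C X H D a = ((m - X.dim : ℤ) : K) • a

include hC hH

/-- **A skew-symmetric weight operator with a nilpotent value of `∏ (T - (i - d))` gives a self-dual
Chow-Kunneth decomposition.** -/
theorem selfDual_of_op {D : Cor C X} (hD0 : D ∈ cor0 C X) (hDt : tpR C X D = -D)
    (hDw : ActsAsWeight H X D) {N : ℕ} (hN : (aeval D (wpol X.dim)) ^ N = 0) :
    HasSelfDualCK H X := by
  have : CharZero K := charZero_of_inj_zero fun n hn =>
    by_contra fun h => Pool.Agent.Y107.charZero_coeff H X n h hn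
  obtain ⟨ε, hε⟩ := exists_idem (R := Cor C X) X.dim N
  obtain ⟨h1, h2, h3, h4, h5⟩ := hε hN
  have hact0 : ∀ i ∈ Finset.range (2 * X.dim + 1), ∀ m : ℤ, ∀ a ∈ H.gr X m, m ≠ i →
      actH C X H (aeval D (ε i)) a = 0 := by
    intro i hi m a ha hm
    have e1 : ((i : ℚ) - X.dim) = (((i : ℤ) - X.dim : ℤ) : ℚ) := by push_cast; ring
    have h6 := congrArg (fun y : Cor C X => actH C X H y a) (h4 i hi)
    simp only [map_mul, Module.End.mul_apply, map_zero, LinearMap.zero_apply] at h6
    rw [e1, map_intCast, map_pow, map_sub, map_intCast] at h6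
    have h7 : ∀ n : ℕ, ((actH C X H D - (((i : ℤ) - X.dim : ℤ) : Module.End K (H.A X))) ^ n) a =
        (((m - i : ℤ) : K) ^ n) • a := by
      intro n
      induction n with
      | zero => simp
      | succ n ih =>
        rw [pow_succ', Module.End.mul_apply, ih, map_smul, LinearMap.sub_apply, hDw m a ha]
        have e2 : ((((i : ℤ) - X.dim : ℤ) : Module.End K (H.A X))) a =
            (((i : ℤ) - X.dim : ℤ) : K) • a := by
          rw [Module.End.intCast_apply, Int.cast_smul_eq_zsmul]
        rw [e2, ← sub_smul, smul_smul, pow_succ]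
        congr 2
        push_cast
        ring
    rw [h7, map_smul] at h6
    refine (smul_eq_zero.1 h6).resolve_left (pow_ne_zero _ ?_)
    exact_mod_cast sub_ne_zero.2 hm
  refine ⟨fun i => aeval D (ε i), isCK_of (fun i => aeval_mem_cor0 hD0 _) (fun i hi => ?_) h2 h3
    (fun i m a ha => ?_), fun i hi => ?_⟩
  · exact h1 i (by rw [Finset.mem_range]; omega)
  · by_cases hi : i ∈ Finset.range (2 * X.dim + 1)
    · split_ifs with hm
      · subst hm
        have h6 := congrArg (fun y : Cor C X => actH C X H y a) h3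
        simp only [map_sum, LinearMap.sum_apply, map_one, Module.End.one_apply] at h6
        rw [Finset.sum_eq_single_of_mem i hi (fun j hj hji =>
          hact0 j hj i a ha (fun h => hji (by exact_mod_cast h.symm)))] at h6
        exact h6
      · exact hact0 i hi m a ha hm
    · rw [h1 i hi, map_zero, LinearMap.zero_apply]
      split_ifs with hm
      · subst hm
        rw [gr_top H (by rw [Finset.mem_range] at hi; omega), Submodule.mem_bot] at ha
        exact ha.symm
      · rfl
  · show tpR C X (aeval D (ε i)) = aeval D (ε (2 * X.dim - i))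
    rw [tpR_aeval, hDt]
    exact h5 i hi

/-- The weight operator of a Chow-Kunneth decomposition. -/
theorem op_of_selfDual (h : HasSelfDualCK H X) : ∃ D ∈ cor0 C X, tpR C X D = -D ∧
    ActsAsWeight H X D ∧ aeval D (wpol X.dim) = 0 := by
  obtain ⟨P, hP, hs⟩ := h
  let Q : ℕ → Cor C X := P
  let D : Cor C X := ∑ i ∈ Finset.range (2 * X.dim + 1), ((i : ℤ) - X.dim) • Q i
  have hQ0 : ∀ i, Q i ∈ cor0 C X := hP.deg
  have hmul : ∀ i j, Q i * Q j = if i = j then Q i else 0 := fun i j => hP.mul_eq i j
  have hsum : ∑ i ∈ Finset.range (2 * X.dim + 1), Q i = 1 := hP.sum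
  refine ⟨D, ?_, ?_, ?_, ?_⟩
  · exact Subalgebra.sum_mem _ fun i _ => zsmul_mem (hQ0 i) _
  · have e1 : tpR C X D = ∑ i ∈ Finset.range (2 * X.dim + 1),
        ((i : ℤ) - X.dim) • Q (2 * X.dim - i) := by
      rw [map_sum]
      refine Finset.sum_congr rfl fun i hi => ?_
      rw [map_zsmul]
      have h6 : tpR C X (Q i) = Q (2 * X.dim - i) := hs i (by rw [Finset.mem_range] at hi; omega)
      rw [h6]
    have e2 : ∑ i ∈ Finset.range (2 * X.dim + 1), ((i : ℤ) - X.dim) • Q (2 * X.dim - i) =
        ∑ i ∈ Finset.range (2 * X.dim + 1),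
          (fun j : ℕ => (((2 * X.dim - j : ℕ) : ℤ) - X.dim) • Q j) (2 * X.dim - i) := by
      refine Finset.sum_congr rfl fun i hi => ?_
      rw [Finset.mem_range] at hi
      show _ = (((2 * X.dim - (2 * X.dim - i) : ℕ) : ℤ) - X.dim) • Q (2 * X.dim - i)
      rw [show 2 * X.dim - (2 * X.dim - i) = i by omega]
    rw [e1, e2, Finset.sum_flip (f := fun j : ℕ => (((2 * X.dim - j : ℕ) : ℤ) - X.dim) • Q j),
      ← Finset.sum_neg_distrib]
    refine Finset.sum_congr rfl fun i hi => ?_
    rw [Finset.mem_range] at hi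
    rw [← neg_smul]
    congr 1
    rw [Nat.cast_sub (by omega)]
    push_cast
    ring
  · intro m a ha
    have h6 : actH C X H D a = ∑ i ∈ Finset.range (2 * X.dim + 1),
        ((i : ℤ) - X.dim) • (if m = i then a else 0) := by
      rw [map_sum, LinearMap.sum_apply]
      refine Finset.sum_congr rfl fun i _ => ?_
      rw [map_zsmul, LinearMap.smul_apply]
      congr 1
      exact hP.actH_eq i m ha
    rw [h6]
    by_cases ha0 : a = 0
    · subst ha0; simp
    have hm0 := nonneg_of_mem H ha ha0
    have hm1 : m ≤ 2 * X.dim := by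
      by_contra hcon
      rw [gr_top H (by omega), Submodule.mem_bot] at ha
      exact ha0 ha
    obtain ⟨j, rfl⟩ := Int.eq_ofNat_of_zero_le hm0
    rw [Finset.sum_eq_single_of_mem j (by rw [Finset.mem_range]; omega) (fun i _ hij => by
      rw [if_neg (by exact_mod_cast hij.symm), smul_zero])]
    rw [if_pos rfl, Int.cast_smul_eq_zsmul]
  · have h6 : ∀ j ∈ Finset.range (2 * X.dim + 1), D * Q j = (((j : ℚ) - X.dim)) • Q j := by
      intro j hj
      rw [Finset.sum_mul, Finset.sum_eq_single_of_mem j hj (fun i _ hij => by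
        rw [smul_mul_assoc, hmul, if_neg hij, smul_zero]), smul_mul_assoc, hmul, if_pos rfl]
      rw [show ((j : ℚ) - X.dim) = (((j : ℤ) - X.dim : ℤ) : ℚ) by push_cast; ring,
        Int.cast_smul_eq_zsmul]
    rw [← mul_one (aeval D (wpol X.dim)), ← hsum, Finset.mul_sum]
    refine Finset.sum_eq_zero fun j hj => ?_
    rw [aeval_mul_eigen (h6 j hj), wpol, eval_prod,
      Finset.prod_eq_zero hj (by simp), zero_smul]

end Pool.Agent.E870.SD
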