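import Pool.Agent.E870.SD.Main

/-!
# Self-dual Chow-Kunneth decompositions and direct factors with nilpotent complement: ascent
-/

open CategoryTheory AlgebraicGeometry Polynomial

universe u v w

namespace Pool.Agent.E870.SD

open Pool.Agent.H914 Pool.Agent.H914.VarClass Pool.Agent.H914.VarClass.Obj Pool.Agent.W492.BB
  Pool.Agent.W550.Corr Pool.Agent.TH133

set_option linter.unusedSectionVars false

section alg

variable {R : Type*} [Ring R] [Algebra ℚ R]

lemma aeval_add_of_orth {x y : R} (hxy : x * y = 0) (hyx : y * x = 0) (P : ℚ[X]) :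
    aeval (x + y) P = aeval x P + aeval y P - P.eval 0 • (1 : R) := by
  have hpow : ∀ m : ℕ, (x + y) ^ (m + 1) = x ^ (m + 1) + y ^ (m + 1) := by
    intro m
    induction m with
    | zero => simp
    | succ m ih =>
      rw [pow_succ, ih, mul_add, add_mul, add_mul, ← pow_succ, ← pow_succ, pow_succ y m, mul_assoc,
        hyx, mul_zero, pow_succ x m, mul_assoc (x ^ m) x y, hxy, mul_zero]
      abel
  induction P using Polynomial.induction_on' with
  | add a b ha hb =>
    rw [map_add, map_add, map_add, ha, hb, eval_add, add_smul]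
    abel
  | monomial m c =>
    rw [aeval_monomial, aeval_monomial, aeval_monomial]
    rcases m with _ | m
    · rw [pow_zero, pow_zero, pow_zero, monomial_zero_left, eval_C, Algebra.smul_def]
      abel
    · rw [hpow, eval_monomial, zero_pow (by omega), mul_zero, zero_smul, sub_zero, mul_add]

lemma aeval_corner {e x : R} (he : e * e = e) (hx : e * x * e = x) (P : ℚ[X]) :
    e * aeval x P * e = aeval x P - P.eval 0 • (1 - e) := by
  have hex : e * x = x := by
    calc e * x = e * (e * x * e) := by rw [hx]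
      _ = (e * e) * x * e := by simp only [mul_assoc]
      _ = x := by rw [he, hx]
  have hxe : x * e = x := by
    calc x * e = (e * x * e) * e := by rw [hx]
      _ = e * x * (e * e) := by simp only [mul_assoc]
      _ = x := by rw [he, hx]
  induction P using Polynomial.induction_on' with
  | add a b ha hb =>
    rw [map_add, mul_add, add_mul, ha, hb, eval_add, add_smul]
    abel
  | monomial m c =>
    rw [aeval_monomial, ← Algebra.smul_def, mul_smul_comm, smul_mul_assoc]
    rcases m with _ | m
    · rw [pow_zero, mul_one, he, monomial_zero_left, eval_C, ← smul_sub]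
      congr 1
      abel
    · rw [eval_monomial, zero_pow (by omega), mul_zero, zero_smul, sub_zero, pow_succ, mul_assoc,
        mul_assoc, hxe, ← pow_succ, pow_succ', ← mul_assoc, hex]

lemma wpol_eval_zero (d : ℕ) : (wpol d).eval 0 = 0 := by
  rw [wpol, eval_prod]
  exact Finset.prod_eq_zero (i := d) (by rw [Finset.mem_range]; omega) (by simp)

/-- `X` divides `wpol`, and so does `X (X - (m - d))` for `m ≠ d`. -/
lemma X_mul_dvd (d m : ℕ) (hm : m ≤ 2 * d) (hmd : m ≠ d) :
    (X * (X - Polynomial.C ((m : ℚ) - d))) ∣ wpol d := by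
  have h1 : ∀ i ≤ 2 * d, (X - Polynomial.C ((i : ℚ) - d)) ∣ wpol d := fun i hi =>
    Finset.dvd_prod_of_mem _ (by rw [Finset.mem_range]; omega)
  have h2 : (X : ℚ[X]) = X - Polynomial.C ((d : ℚ) - d) := by simp
  have h3 : IsCoprime (X : ℚ[X]) (X - Polynomial.C ((m : ℚ) - d)) := by
    have := fac_coprime d 1 (i := d) (j := m) (fun h => hmd h.symm)
    rw [fac, fac, pow_one, pow_one, ← h2] at this
    exact this
  refine h3.mul_dvd ?_ (h1 m hm)
  have := h1 d (by omega)
  rwa [← h2] at this

end alg

variable {k : Type u} [Field k] {𝒱 : VarClass k}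
variable {C : TheoryData.{u, v, 0} 𝒱 ℚ} [hC : IsChowProj C] {K : Type w} [Field K]
  {H : WeilTheoryData.{u, v, w} C K} [hH : IsWeilProj H] {X Y Z W : 𝒱.Obj}

include hC hH

/-- The transpose of a correspondence which acts as a scalar on every `H^m`. -/
lemma tp_scal {D : Cor C Y} {s : ℤ → K}
    (h : ∀ (m : ℤ), ∀ a ∈ H.gr Y m, actH C Y H D a = s m • a) (m : ℤ) {a : H.A Y}
    (ha : a ∈ H.gr Y m) : actH C Y H (tpR C Y D) a = s (2 * Y.dim - m) • a := by
  rw [← sub_eq_zero]
  apply H.nondeg
  have h0 : (H.tr Y ∘ₗ LinearMap.mulLeft K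
      (actH C Y H (tpR C Y D) a - s (2 * Y.dim - m) • a)) = 0 := by
    apply ext_gr H
    intro j b hb
    rw [LinearMap.comp_apply, LinearMap.mulLeft_apply, LinearMap.zero_apply, sub_mul, map_sub,
      smul_mul_assoc, map_smul]
    have h1 : H.tr Y (actH C Y H (tpR C Y D) a * b) = H.tr Y (a * actH C Y H D b) :=
      tr_act' H (Γ := (D : C.A (Y.prod Y))) b a
    rw [h1, h j b hb, mul_smul_comm, map_smul, ← sub_smul]
    by_cases hj : j = 2 * Y.dim - m
    · rw [hj, sub_self, zero_smul]
    · rw [tr_zero H (H.mul_mem ha hb) (by omega), smul_zero]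
  intro b
  exact LinearMap.congr_fun h0 b

/-- **Ascent.** -/
theorem ascend (hd : Y.dim = X.dim) {p : C.A (X.prod Y)} {c : ℚ}
    (hp : p ∈ C.gr (X.prod Y) X.dim) (hpq : c • C.comp p (tp C p) = dg C X)
    (hnil : HomNilpotent H Y (complement C p c)) (h : HasSelfDualCK H X)
    (hK : KunnethStd H Y) : HasSelfDualCK H Y := by
  obtain ⟨n, hn⟩ := hnil
  obtain ⟨D, hD0, hDt, hDw, hDz⟩ := op_of_selfDual h
  obtain ⟨κ, hκ⟩ := hK
  set q : C.A (Y.prod X) := c • tp C p with hq
  have h1 : C.comp p q = dg C X := by rw [hq, comp_smul']; exact hpq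
  have hq0 : q ∈ C.gr (Y.prod X) Y.dim := by
    rw [hd]
    exact Submodule.smul_mem _ _ (tp_mem C hp)
  have hf0 : idm p q ∈ cor0 C Y := by
    have h2 : C.comp q p ∈ C.gr (Y.prod Y) (Y.dim + (0 + 0)) :=
      comp_mem C (e := 0) (e' := 0) (Γ := q) (Δ := p) (by rwa [add_zero]) (by rwa [add_zero])
    rw [add_zero, add_zero] at h2
    exact h2
  have hu0 : cnj q p D ∈ cor0 C Y := by
    have h2 : C.comp q (D : C.A (X.prod X)) ∈ C.gr (Y.prod X) (Y.dim + (0 + 0)) :=
      comp_mem C (e := 0) (e' := 0) (Γ := q) (Δ := (D : C.A (X.prod X)))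
        (by rwa [add_zero]) (by rw [add_zero]; exact hD0)
    have h3 : C.comp (C.comp q (D : C.A (X.prod X))) p ∈ C.gr (Y.prod Y) (Y.dim + (0 + 0 + 0)) :=
      comp_mem C (e := 0 + 0) (e' := 0) (Δ := p) h2 (by rwa [add_zero])
    rw [add_zero, add_zero, add_zero] at h3
    exact h3
  -- a skew-symmetric weight operator modulo homological equivalence
  let κ' : ℕ → Cor C Y := κ
  let D' : Cor C Y := ∑ i ∈ Finset.range (2 * Y.dim + 1), ((i : ℤ) - Y.dim) • κ' i
  have hD'0 : D' ∈ cor0 C Y := Subalgebra.sum_mem _ fun i _ => zsmul_mem (hκ i).1 _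
  have hD'w : ActsAsWeight H Y D' := by
    intro m a ha
    have h6 : actH C Y H D' a = ∑ i ∈ Finset.range (2 * Y.dim + 1),
        ((i : ℤ) - Y.dim) • (if m = i then a else 0) := by
      rw [map_sum, LinearMap.sum_apply]
      refine Finset.sum_congr rfl fun i _ => ?_
      rw [map_zsmul, LinearMap.smul_apply]
      congr 1
      exact (hκ i).2 m a ha
    rw [h6]
    by_cases ha0 : a = 0
    · subst ha0; simp
    have hm0 := nonneg_of_mem H ha ha0
    have hm1 : m ≤ 2 * Y.dim := by
      by_contra hcon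
      rw [gr_top H (by omega), Submodule.mem_bot] at ha
      exact ha0 ha
    obtain ⟨j, rfl⟩ := Int.eq_ofNat_of_zero_le hm0
    rw [Finset.sum_eq_single_of_mem j (by rw [Finset.mem_range]; omega) (fun i _ hij => by
      rw [if_neg (by exact_mod_cast hij.symm), smul_zero])]
    rw [if_pos rfl, Int.cast_smul_eq_zsmul]
  have hchar : CharZero K := charZero_of_inj_zero fun n hn =>
    by_contra fun h => Pool.Agent.Y107.charZero_coeff H X n h hn
  let s : Cor C Y := (2⁻¹ : ℚ) • (D' - tpR C Y D')
  have hs0 : s ∈ cor0 C Y :=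
    Subalgebra.smul_mem _ (Subalgebra.sub_mem _ hD'0 (tpR_mem hD'0)) _
  have hst : tpR C Y s = -s := by
    simp only [s]
    rw [tpR_smul, map_sub, tpR_tpR, ← smul_neg]
    congr 1
    abel
  have hsw : ActsAsWeight H Y s := by
    intro m a ha
    have h2 : (2 : ℕ) • s = D' - tpR C Y D' := by
      simp only [s]
      rw [← Nat.cast_smul_eq_nsmul ℚ, smul_smul]
      norm_num
    have h3 := congrArg (fun z : Cor C Y => actH C Y H z a) h2
    simp only [map_nsmul, map_sub, LinearMap.smul_apply, LinearMap.sub_apply] at h3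
    rw [hD'w m a ha, tp_scal (H := H) (s := fun m => ((m - Y.dim : ℤ) : K))
      (fun m a ha => hD'w m a ha) m ha, ← sub_smul, ← Nat.cast_smul_eq_nsmul K] at h3
    have h4 : (((m - Y.dim : ℤ) : K) - ((2 * Y.dim - m - Y.dim : ℤ) : K)) =
        ((2 : ℕ) : K) * ((m - Y.dim : ℤ) : K) := by push_cast; ring
    rw [h4, mul_smul] at h3
    have h5 : ((2 : ℕ) : K) ≠ 0 := Nat.cast_ne_zero.2 two_ne_zero
    exact smul_right_injective _ h5 h3
  set f : Cor C Y := idm p q with hf
  set e : Cor C Y := 1 - f with he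
  have hff : f * f = f := idm_idm h1
  have hee : e * e = e := by rw [he, mul_sub, mul_one, sub_mul, one_mul, hff, sub_self, sub_zero]
  have hfe : f * e = 0 := by rw [he, mul_sub, mul_one, hff, sub_self]
  have hef : e * f = 0 := by rw [he, sub_mul, one_mul, hff, sub_self]
  have he0 : e ∈ cor0 C Y := Subalgebra.sub_mem _ (Subalgebra.one_mem _) hf0
  have hft : tpR C Y f = f := by
    rw [hf, ← cnj_one, hq, tpR_cnj, tpR_one]
  have het : tpR C Y e = e := by rw [he, map_sub, tpR_one, hft]
  set uu : Cor C Y := cnj q p D with huu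
  set vv : Cor C Y := e * s * e with hvv
  have hfu : f * uu = uu := idm_cnj h1 D
  have huf : uu * f = uu := cnj_idm h1 D
  have huv : uu * vv = 0 := by
    rw [← huf, hvv]
    calc uu * f * (e * s * e) = uu * (f * e) * s * e := by simp only [mul_assoc]
      _ = 0 := by rw [hfe, mul_zero, zero_mul, zero_mul]
  have hvu : vv * uu = 0 := by
    rw [← hfu, hvv]
    calc e * s * e * (f * uu) = e * s * (e * f) * uu := by simp only [mul_assoc]
      _ = 0 := by rw [hef, mul_zero, zero_mul]
  have hevv : e * vv * e = vv := by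
    rw [hvv]
    calc e * (e * s * e) * e = (e * e) * s * (e * e) := by simp only [mul_assoc]
      _ = e * s * e := by rw [hee]
  have hv0 : vv ∈ cor0 C Y := Subalgebra.mul_mem _ (Subalgebra.mul_mem _ he0 hs0) he0
  -- the action on the cohomology
  have hact_e : ∀ a : H.A Y, actH C Y H e (actH C Y H e a) = actH C Y H e a := by
    intro a
    rw [← Module.End.mul_apply, ← map_mul, hee]
  have hvact : ∀ (m : ℤ), ∀ a ∈ H.gr Y m, actH C Y H vv a =
      ((m - Y.dim : ℤ) : K) • actH C Y H e a := by
    intro m a ha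
    rw [hvv, map_mul, map_mul, Module.End.mul_apply, Module.End.mul_apply,
      hsw m _ (actH_mem0 he0 ha), map_smul, hact_e]
  have huact : ∀ (m : ℤ), ∀ a ∈ H.gr Y m, actH C Y H uu a =
      ((m - Y.dim : ℤ) : K) • actH C Y H f a := by
    intro m a ha
    have ha' : H.act (H.cl q) a ∈ H.gr X m := gr_pres (X := Y) (Y := X) hq0 ha
    have h6 : H.act (H.cl p) (((m - X.dim : ℤ) : K) • H.act (H.cl q) a) =
        ((m - X.dim : ℤ) : K) • H.act (H.cl p) (H.act (H.cl q) a) :=
      map_smul (H.actL (X := X) (Y := Y) (H.cl p)) _ _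
    rw [huu, actH_cnj, hDw m _ ha', h6, hf, actH_idm, hd]
  -- the value of the polynomial
  have hw1 : aeval (uu + vv) (wpol Y.dim) = aeval vv (wpol Y.dim) := by
    rw [aeval_add_of_orth huv hvu, wpol_eval_zero, zero_smul, sub_zero, huu, aeval_cnj h1,
      wpol_eval_zero, zero_smul, add_zero]
    rw [hd, hDz, map_zero, zero_add]
  set ww : Cor C Y := aeval vv (wpol Y.dim) with hww
  have heww : e * ww * e = ww := by
    rw [hww, aeval_corner hee hevv, wpol_eval_zero, zero_smul, sub_zero]
  have hww0 : ww ∈ cor0 C Y := aeval_mem_cor0 hv0 _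
  have hwact : ∀ a, actH C Y H ww a = 0 := by
    have h2 : actH C Y H ww = 0 := by
      apply ext_gr H
      intro m a ha
      rw [LinearMap.zero_apply]
      by_cases ha0 : a = 0
      · rw [ha0, map_zero]
      have hm0 := nonneg_of_mem H ha ha0
      have hm1 : m ≤ 2 * Y.dim := by
        by_contra hcon
        rw [gr_top H (by omega), Submodule.mem_bot] at ha
        exact ha0 ha
      obtain ⟨j, rfl⟩ := Int.eq_ofNat_of_zero_le hm0
      by_cases hj : j = Y.dim
      · subst hj
        obtain ⟨Q, hQ⟩ : (Polynomial.X : ℚ[X]) ∣ wpol Y.dim := by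
          have := Finset.dvd_prod_of_mem (fun i : ℕ => (Polynomial.X -
            Polynomial.C ((i : ℚ) - Y.dim))) (a := Y.dim) (s := Finset.range (2 * Y.dim + 1))
            (by rw [Finset.mem_range]; omega)
          simpa [wpol] using this
        rw [hww, hQ, mul_comm, map_mul, aeval_X, map_mul, Module.End.mul_apply, hvact _ a ha]
        simp
      · obtain ⟨Q, hQ⟩ := X_mul_dvd Y.dim j (by omega) hj
        have e1 : ((j : ℚ) - Y.dim) = (((j : ℤ) - Y.dim : ℤ) : ℚ) := by push_cast; ring
        have h8 : aeval vv (Q * (Polynomial.X * (Polynomial.X - Polynomial.C ((j : ℚ) - Y.dim)))) =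
            aeval vv Q * (vv * (vv - (((j : ℤ) - Y.dim : ℤ) : Cor C Y))) := by
          rw [map_mul, map_mul (aeval vv) Polynomial.X,
            map_sub (aeval vv : ℚ[X] →ₐ[ℚ] Cor C Y) Polynomial.X, aeval_X, aeval_C, e1, map_intCast]
        rw [hww, hQ, mul_comm, h8, map_mul, Module.End.mul_apply, map_mul, Module.End.mul_apply,
          map_sub, map_intCast, LinearMap.sub_apply, hvact _ a ha, Module.End.intCast_apply,
          ← Int.cast_smul_eq_zsmul K]
        have h7 : actH C Y H vv (((((j : ℕ) : ℤ) - Y.dim : ℤ) : K) • actH C Y H e a -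
            ((((j : ℕ) : ℤ) - Y.dim : ℤ) : K) • a) = 0 := by
          rw [map_sub, map_smul, map_smul, hvact _ _ (actH_mem0 he0 ha), hact_e, hvact _ a ha,
            sub_self]
        rw [h7, map_zero]
    intro a
    rw [h2, LinearMap.zero_apply]
  have hcl : H.cl (X := Y.prod Y) (ww : C.A (Y.prod Y)) = 0 :=
    hom_zero_of_act H (Γ := (ww : C.A (Y.prod Y))) fun a => hwact a
  have hce : (complement C p c : Cor C Y) = e := by
    rw [he, hf]
    unfold complement idm
    rw [hq, smul_comp']
    rfl
  have hwn : ww ^ n = 0 := by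
    have h2 := hn (List.replicate n (ww : C.A (Y.prod Y))) List.length_replicate (by
      intro γ hγ
      rw [List.eq_of_mem_replicate hγ]
      refine ⟨hww0, hcl, ?_⟩
      have h3 : (complement C p c : C.A (Y.prod Y)) = e := hce
      rw [h3, comp_assoc C]
      exact heww)
    have h3 : cprod (List.replicate n ww) = 0 := h2
    rwa [cprod_eq, List.reverse_replicate, List.prod_replicate] at h3
  refine selfDual_of_op (D := uu + vv) (Subalgebra.add_mem _ hu0 hv0) ?_ ?_ (N := n) ?_
  · rw [map_add, hvv, tpR_mul, tpR_mul, het, hst, huu, hq, tpR_cnj, hDt, map_neg]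
    noncomm_ring
  · intro m a ha
    rw [map_add, LinearMap.add_apply, huact m a ha, hvact m a ha, ← smul_add, ← LinearMap.add_apply,
      ← map_add, he, add_sub_cancel, map_one, Module.End.one_apply]
  · rw [hw1, hwn]

end Pool.Agent.E870.SD
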